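import Pool.Agent.Lib.H11I.Sendov

set_option autoImplicit false

open Polynomial Pool.Agent.H11I

namespace Pool.Agent.Results.MP_951270_an.TenFiveEighths

/-- Let `|a| = 5 / 8`.  There is an extremal polynomial for `n = 10` and `a`; all extremal polynomials `P`
for `n = 10` and `a` satisfy `d(a, P) > 11 / 12`; and every `P` in `P_10(a)` with `d(a, P) ≥ 11 / 12`, hence
every extremal one, has a critical point strictly outside the circle `|z - a| = d(a, P)`. -/
theorem result (a : ℂ) (ha : ‖a‖ = 5 / 8) :
    (∃ P, Extremal 10 a P) ∧ (∀ P, Extremal 10 a P → 11 / 12 < critDist a P) ∧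
      ∀ P ∈ PolyClass 10 a, 11 / 12 ≤ critDist a P →
        ∃ ζ : ℂ, P.derivative.eval ζ = 0 ∧ critDist a P < ‖ζ - a‖ :=
  main ha

end Pool.Agent.Results.MP_951270_an.TenFiveEighths
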